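import Pool.Agent.Helper35.SHR.Sheet

/-! Row PSI2 of project SHR (MP_0dfa80_co). -/

set_option autoImplicit false

namespace SHR
open SHQ
open scoped ENNReal

theorem psi2_getD (l : List ℕ) (r : ℕ) : l.getD r 0 ≤ l.sum := by
  induction l generalizing r with
  | nil => simp
  | cons a l ih =>
    cases r with
    | zero => simp
    | succ r =>
      simp only [List.getD_cons_succ, List.sum_cons]
      exact (ih r).trans (Nat.le_add_left _ _)

theorem psi2_D0 : (DD : ℝ≥0∞) ≠ 0 := by
  have : DD ≠ 0 := by unfold DD; norm_num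
  exact_mod_cast this

theorem psi2_mul (a b : ℕ) : toE (mulN a b) ≤ toE a * toE b := by
  have hDt : (DD : ℝ≥0∞) ≠ ⊤ := ENNReal.natCast_ne_top DD
  have h : ((a * b / DD : ℕ) : ℝ≥0∞) ≤ (a : ℝ≥0∞) * b / DD := by
    rw [ENNReal.le_div_iff_mul_le (Or.inl psi2_D0) (Or.inl hDt)]
    exact_mod_cast Nat.div_mul_le_self (a * b) DD
  calc toE (mulN a b) = ((a * b / DD : ℕ) : ℝ≥0∞) / DD := rfl
    _ ≤ ((a : ℝ≥0∞) * b / DD) / DD := ENNReal.div_le_div_right h _
    _ = toE a * toE b := by
      unfold toE
      simp only [div_eq_mul_inv]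
      ring

theorem psi2_mono {a b : ℕ} (h : a ≤ b) : toE a ≤ toE b :=
  ENNReal.div_le_div_right (by exact_mod_cast h) _

theorem psi2_one : toE DD = 1 := ENNReal.div_self psi2_D0 (ENNReal.natCast_ne_top DD)

theorem psi2_pow (a k : ℕ) : toE (powN a k) ≤ toE a ^ k := by
  induction k with
  | zero =>
    simp only [powN, pow_zero]
    rw [psi2_one]
  | succ k ih =>
    simp only [powN, pow_succ]
    exact (psi2_mul _ _).trans (mul_le_mul_left ih _)

theorem st_PSI2 : ST_PSI2 := by
  intro n te tn o h
  constructor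
  · refine ⟨toE (te.sum + tn.sum), ?_, ?_⟩
    · exact ENNReal.div_ne_top (ENNReal.natCast_ne_top _) psi2_D0
    · intro f s
      have h1 : (if f = s.1 then te.getD s.2.val 0 else tn.getD s.2.val 0) ≤
          te.sum + tn.sum := by
        split_ifs
        · exact (psi2_getD _ _).trans (Nat.le_add_right _ _)
        · exact (psi2_getD _ _).trans (Nat.le_add_left _ _)
      calc toE (psiN te tn o f s)
          ≤ toE (powN o.be s.2.val) *
            toE (if f = s.1 then te.getD s.2.val 0 else tn.getD s.2.val 0) := psi2_mul _ _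
        _ ≤ toE o.be ^ s.2.val * toE (te.sum + tn.sum) :=
            mul_le_mul' (psi2_pow _ _) (psi2_mono h1)
        _ = toE (te.sum + tn.sum) * ev o.om s := by
            rw [mul_comm]
            rfl
  · intro f b hfb
    have h1 : psiN (n := n) te tn o f (b, 0) = tn.getD 0 0 := by
      unfold psiN
      rw [if_neg hfb]
      show DD * tn.getD 0 0 / DD = tn.getD 0 0
      exact Nat.mul_div_cancel_left _ (by unfold DD; norm_num)
    rw [h1, ← psi2_one]
    exact psi2_mono h

end SHR
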